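import Pool.Agent.H6.FIB.TargetsG

/-!
# MP_7500ea_al: DK3, groups acting with two fixed points for each non-trivial element
-/

set_option autoImplicit false

open scoped Classical ComplexConjugate

namespace Pool.Agent.H36.FIB

open FI AMc AMt

theorem arith_ord (n c1 c2 c3 e1 e2 e3 : ℕ) (h1 : c1 * e1 = n) (h2 : c2 * e2 = n)
    (h3 : c3 * e3 = n) (_k1 : 3 ≤ c1) (_k2 : 3 ≤ c2) (k3 : 3 ≤ c3) (m1 : 2 ≤ e1)
    (m12 : e1 ≤ e2) (m23 : e2 ≤ e3) (hs : c1 + c2 + c3 = n + 2) : n = 12 ∨ n = 24 ∨ n = 60 := by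
  have a1 : e1 < 3 := by
    by_contra h
    push Not at h
    have b1 : c1 * 3 ≤ n := h1 ▸ Nat.mul_le_mul_left _ h
    have b2 : c2 * 3 ≤ n := h2 ▸ Nat.mul_le_mul_left _ (h.trans m12)
    have b3 : c3 * 3 ≤ n := h3 ▸ Nat.mul_le_mul_left _ (h.trans (m12.trans m23))
    omega
  have e1' : e1 = 2 := by omega
  subst e1'
  have a2 : e2 < 4 := by
    by_contra h
    push Not at h
    have b2 : c2 * 4 ≤ n := h2 ▸ Nat.mul_le_mul_left _ h
    have b3 : c3 * 4 ≤ n := h3 ▸ Nat.mul_le_mul_left _ (h.trans m23)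
    omega
  have a2' : e2 = 2 ∨ e2 = 3 := by omega
  rcases a2' with rfl | rfl
  · omega
  · have a3 : e3 < 6 := by
      by_contra h
      push Not at h
      have b3 : c3 * 6 ≤ n := h3 ▸ Nat.mul_le_mul_left _ h
      omega
    have a3' : e3 = 3 ∨ e3 = 4 ∨ e3 = 5 := by omega
    rcases a3' with rfl | rfl | rfl <;> omega

theorem arith3 (n c1 c2 c3 e1 e2 e3 : ℕ) (h1 : c1 * e1 = n) (h2 : c2 * e2 = n)
    (h3 : c3 * e3 = n) (k1 : 3 ≤ c1) (k2 : 3 ≤ c2) (k3 : 3 ≤ c3) (m1 : 2 ≤ e1) (m2 : 2 ≤ e2)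
    (m3 : 2 ≤ e3) (hs : c1 + c2 + c3 = n + 2) : n = 12 ∨ n = 24 ∨ n = 60 := by
  rcases le_total e1 e2 with h12 | h12 <;> rcases le_total e2 e3 with h23 | h23 <;>
    rcases le_total e1 e3 with h13 | h13
  · exact arith_ord n c1 c2 c3 e1 e2 e3 h1 h2 h3 k1 k2 k3 m1 h12 h23 hs
  · exact arith_ord n c1 c2 c3 e1 e2 e3 h1 h2 h3 k1 k2 k3 m1 h12 h23 hs
  · exact arith_ord n c1 c3 c2 e1 e3 e2 h1 h3 h2 k1 k3 k2 m1 h13 h23 (by omega)
  · exact arith_ord n c3 c1 c2 e3 e1 e2 h3 h1 h2 k3 k1 k2 m3 h13 h12 (by omega)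
  · exact arith_ord n c2 c1 c3 e2 e1 e3 h2 h1 h3 k2 k1 k3 m2 h12 h13 (by omega)
  · exact arith_ord n c2 c3 c1 e2 e3 e1 h2 h3 h1 k2 k3 k1 m2 h23 h13 (by omega)
  · exact arith_ord n c3 c2 c1 e3 e2 e1 h3 h2 h1 k3 k2 k1 m3 h23 h12 (by omega)
  · exact arith_ord n c3 c2 c1 e3 e2 e1 h3 h2 h1 k3 k2 k1 m3 h23 h12 (by omega)

theorem solvable_of_index_two {T : Type} [Group T] [Finite T] (S : Subgroup T)
    (hS : S.index = 2) (hc : ∀ s ∈ S, ∀ t ∈ S, s * t = t * s) : Group.IsSolvable T := by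
  have hN : S.Normal := Subgroup.normal_of_index_eq_two hS
  have h1 : Group.IsSolvable S := Group.isSolvable_of_comm fun a b => Subtype.ext (hc a a.2 b b.2)
  have hcard : Nat.card (T ⧸ S) = 2 := hS
  have h2 : Group.IsSolvable (T ⧸ S) := by
    have hcyc : IsCyclic (T ⧸ S) := isCyclic_of_prime_card (p := 2) hcard
    refine Group.isSolvable_of_comm fun a b => ?_
    obtain ⟨g, hg⟩ := hcyc.exists_generator
    obtain ⟨i, rfl⟩ := Subgroup.mem_zpowers_iff.1 (hg a)
    obtain ⟨j, rfl⟩ := Subgroup.mem_zpowers_iff.1 (hg b)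
    rw [← zpow_add, ← zpow_add, add_comm]
  exact Group.isSolvable_of_ker_le_range S.subtype (QuotientGroup.mk' S) (by
    rw [QuotientGroup.ker_mk', Subgroup.range_subtype])

theorem pf_DK3 (h1 : T_O60) : T_DK3 := by
  intro T Ω _ _ _ _ hfix hcomm
  have iT : Fintype T := Fintype.ofFinite T
  have iΩ : Fintype Ω := Fintype.ofFinite Ω
  have iQ : Fintype (MulAction.orbitRel.Quotient T Ω) := Fintype.ofFinite _
  set n := Nat.card T with hn
  have hnpos : 0 < n := Nat.card_pos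
  set c : MulAction.orbitRel.Quotient T Ω → ℕ :=
    fun ω => (MulAction.stabilizer T ω.out).index with hc
  set e : MulAction.orbitRel.Quotient T Ω → ℕ :=
    fun ω => Nat.card (MulAction.stabilizer T ω.out) with he
  have hce : ∀ ω, c ω * e ω = n := fun ω => Subgroup.index_mul_card _
  have hΩ : ∑ ω, c ω = Nat.card Ω := by
    rw [Nat.card_congr (MulAction.selfEquivSigmaOrbitsQuotientStabilizer T Ω), Nat.card_sigma]
    rfl
  have hB : Nat.card Ω + 2 * (n - 1) = Fintype.card (MulAction.orbitRel.Quotient T Ω) * n := by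
    have h2 := MulAction.sum_card_fixedBy_eq_card_orbits_mul_card_group T Ω
    rw [hn, Nat.card_eq_fintype_card (α := T), ← h2,
      ← Finset.add_sum_erase _ _ (Finset.mem_univ (1 : T))]
    have h3 : Fintype.card (MulAction.fixedBy Ω (1 : T)) = Nat.card Ω := by
      rw [← Nat.card_eq_fintype_card]
      refine Nat.card_congr (Equiv.subtypeUnivEquiv fun x => ?_)
      simp
    have h4 : ∑ x ∈ Finset.univ.erase (1 : T), Fintype.card (MulAction.fixedBy Ω x)
        = ∑ x ∈ Finset.univ.erase (1 : T), 2 := by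
      refine Finset.sum_congr rfl fun t ht => ?_
      rw [← Nat.card_eq_fintype_card]
      exact hfix t (Finset.ne_of_mem_erase ht)
    rw [h3, h4, Finset.sum_const, Finset.card_erase_of_mem (Finset.mem_univ _),
      Finset.card_univ, smul_eq_mul, mul_comm 2]
  by_cases hex1 : ∃ ω, c ω = 1
  · obtain ⟨ω, hω⟩ := hex1
    left
    have h2 : MulAction.stabilizer T ω.out = ⊤ := Subgroup.index_eq_one.1 hω
    refine Group.isSolvable_of_comm fun s t => hcomm ω.out s t ?_ ?_
    · exact MulAction.mem_stabilizer_iff.1 (h2 ▸ Subgroup.mem_top s)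
    · exact MulAction.mem_stabilizer_iff.1 (h2 ▸ Subgroup.mem_top t)
  by_cases hex2 : ∃ ω, c ω = 2
  · obtain ⟨ω, hω⟩ := hex2
    left
    exact solvable_of_index_two (MulAction.stabilizer T ω.out) hω fun s hs t ht =>
      hcomm ω.out s t hs ht
  push Not at hex1 hex2
  have hc3 : ∀ ω, 3 ≤ c ω := by
    intro ω
    have h2 : 0 < c ω := Nat.pos_of_ne_zero fun h => by
      have := hce ω
      rw [h, zero_mul] at this
      omega
    have := hex1 ω
    have := hex2 ω
    omega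
  set R : Finset (MulAction.orbitRel.Quotient T Ω) :=
    Finset.univ.filter (fun ω => e ω ≠ 1) with hR
  have hsum : ∑ ω ∈ R, c ω + 2 * (n - 1) = R.card * n := by
    have h2 : ∑ ω, c ω = ∑ ω ∈ R, c ω + ∑ ω ∈ Finset.univ.filter (fun ω => ¬ e ω ≠ 1), c ω :=
      (Finset.sum_filter_add_sum_filter_not _ _ _).symm
    have h3 : ∑ ω ∈ Finset.univ.filter (fun ω => ¬ e ω ≠ 1), c ω
        = (Finset.univ.filter (fun ω => ¬ e ω ≠ 1)).card * n := by
      rw [Finset.sum_congr rfl (g := fun _ => n) fun ω hω => ?_, Finset.sum_const, smul_eq_mul]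
      have h4 : e ω = 1 := by
        simpa using (Finset.mem_filter.1 hω).2
      have h5 := hce ω
      rw [h4, mul_one] at h5
      exact h5
    have h4 : Fintype.card (MulAction.orbitRel.Quotient T Ω)
        = R.card + (Finset.univ.filter (fun ω => ¬ e ω ≠ 1)).card := by
      rw [hR, Finset.card_filter_add_card_filter_not, Finset.card_univ]
    rw [← hΩ, h2, h3, h4, add_mul] at hB
    omega
  have he2 : ∀ ω ∈ R, 2 ≤ e ω := by
    intro ω hω
    have h2 : e ω ≠ 1 := (Finset.mem_filter.1 hω).2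
    have h3 : 0 < e ω := Nat.card_pos
    omega
  have hhalf : ∀ ω ∈ R, 2 * c ω ≤ n := by
    intro ω hω
    have h2 : c ω * 2 ≤ c ω * e ω := Nat.mul_le_mul_left _ (he2 ω hω)
    rw [hce] at h2
    omega
  have hcard : R.card ≤ 3 := by
    by_contra hcon
    push Not at hcon
    have h2 : 2 * ∑ ω ∈ R, c ω ≤ R.card * n := by
      rw [Finset.mul_sum]
      calc ∑ ω ∈ R, 2 * c ω ≤ ∑ ω ∈ R, n := Finset.sum_le_sum hhalf
        _ = R.card * n := by rw [Finset.sum_const, smul_eq_mul]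
    have h3 : 4 * n ≤ R.card * n := Nat.mul_le_mul_right _ hcon
    omega
  have hcases : R.card = 0 ∨ R.card = 1 ∨ R.card = 2 ∨ R.card = 3 := by omega
  rcases hcases with h0 | h0 | h0 | h0
  · left
    rw [Finset.card_eq_zero] at h0
    rw [h0] at hsum
    simp only [Finset.sum_empty, Finset.card_empty] at hsum
    have h2 : n = 1 := by omega
    have h3 : Subsingleton T := (Nat.card_eq_one_iff_unique.1 h2).1
    exact Group.isSolvable_of_comm fun a b => Subsingleton.elim _ _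
  · obtain ⟨w, hw⟩ := Finset.card_eq_one.1 h0
    rw [h0, hw, Finset.sum_singleton] at hsum
    have := hc3 w
    omega
  · obtain ⟨w, w', hww, hw⟩ := Finset.card_eq_two.1 h0
    rw [h0, hw, Finset.sum_pair hww] at hsum
    have := hc3 w
    have := hc3 w'
    omega
  · obtain ⟨w1, w2, w3, h12, h13, h23, hw⟩ := Finset.card_eq_three.1 h0
    have hmem : ∀ w, w = w1 ∨ w = w2 ∨ w = w3 → w ∈ R := by
      intro w h
      rw [hw]
      simpa using h
    rw [h0, hw, Finset.sum_insert (by simp [h12, h13]), Finset.sum_pair h23] at hsum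
    have h4 := arith3 n (c w1) (c w2) (c w3) (e w1) (e w2) (e w3) (hce _) (hce _) (hce _)
      (hc3 _) (hc3 _) (hc3 _) (he2 _ (hmem _ (by simp))) (he2 _ (hmem _ (by simp)))
      (he2 _ (hmem _ (by simp))) (by omega)
    rcases h4 with h4 | h4 | h4
    · left
      exact h1 T (Or.inl (by rw [← hn, h4]; norm_num))
    · left
      exact h1 T (Or.inr (by rw [← hn, h4]))
    · right
      exact h4

end Pool.Agent.H36.FIB
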